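import Mathlib
import Pool.Agent.SpCl.E02Final

/-!
# Polynomials that are sparse in every variable: the measures form a closed semigroup

For `m`, let `S` be the set of the Mahler measures of the nonzero integer polynomials, in any number of
variables, in which every variable occurs with at most `m` distinct exponents. Then `S` is a closed
subset of `ℝ`, closed under multiplication, `1` is isolated in `S`, and below any bound `T` all the
elements of `S` are measures of such polynomials with at most `N(m,T)` variables, monomials, and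
coefficients.
-/

open MeasureTheory Filter Topology Pool.Agent.H27Mahler

namespace Pool.Agent.Results.MP_6d22ea_nt.SparseClosed

/-- Mahler measure of an integer polynomial in `k` variables. -/
noncomputable def measureOf {k : ℕ} (F : MvPolynomial (Fin k) ℤ) : ℝ :=
  Real.exp (∫ t in Set.Icc (0 : Fin k → ℝ) 1,
    Real.log ‖MvPolynomial.eval
      (fun j : Fin k => Complex.exp (2 * (Real.pi : ℂ) * Complex.I * ((t j : ℝ) : ℂ)))
      (MvPolynomial.map (Int.castRingHom ℂ) F)‖)

/-- The set of exponents with which the variable `y` occurs in the monomials of `P`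
(the exponent `0` included, when some monomial does not contain `y`). -/
noncomputable def exponentsOf {k : ℕ} (y : Fin k) (P : MvPolynomial (Fin k) ℤ) : Finset ℕ :=
  P.support.image (fun s => s y)

/-- The set of the Mahler measures of the nonzero integer polynomials in any number of variables in
which every variable occurs with at most `m` distinct exponents. -/
def sparseMeasures (m : ℕ) : Set ℝ :=
  {x | ∃ k : ℕ, 1 ≤ k ∧ ∃ F : MvPolynomial (Fin k) ℤ, F ≠ 0 ∧
    (∀ y : Fin k, (exponentsOf y F).card ≤ m) ∧ x = measureOf F}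

theorem measureOf_eq {k : ℕ} (F : MvPolynomial (Fin k) ℤ) : measureOf F = Real.exp (mm F) := by
  rw [measureOf]
  congr 1
  exact integral_cube_eq_mm F

theorem sparse_zero : sparseMeasures 0 = ∅ := by
  classical
  rw [Set.eq_empty_iff_forall_notMem]
  rintro x ⟨k, hk, F, hF0, hF, -⟩
  obtain ⟨s, hs⟩ := MvPolynomial.support_nonempty.mpr hF0
  have h1 := hF ⟨0, hk⟩
  have h2 : s ⟨0, hk⟩ ∈ exponentsOf ⟨0, hk⟩ F := Finset.mem_image_of_mem _ hs
  have h3 := Finset.card_pos.mpr ⟨_, h2⟩
  omega

theorem mem_iff {m : ℕ} (hm : 1 ≤ m) (x : ℝ) : x ∈ sparseMeasures m ↔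
    ∃ (k : ℕ) (F : MvPolynomial (Fin k) ℤ), F ≠ 0 ∧ (∀ y, (yexp y F).card ≤ m) ∧
      x = Real.exp (mm F) := by
  constructor
  · rintro ⟨k, -, F, hF0, hF, rfl⟩
    exact ⟨k, F, hF0, hF, measureOf_eq F⟩
  · rintro ⟨k, F, hF0, hF, rfl⟩
    refine ⟨k + 1, by omega, MvPolynomial.rename Fin.castSucc F, ?_, ?_, ?_⟩
    · rw [Ne, ← map_zero (MvPolynomial.rename (Fin.castSucc : Fin k → Fin (k + 1))),
        (MvPolynomial.rename_injective _ (Fin.castSucc_injective k)).eq_iff]
      exact hF0
    · exact SpCl.yexp_rename_succ hm hF _ (Fin.castSucc_injective k)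
    · rw [measureOf_eq, mm_rename _ (Fin.castSucc_injective k)]

theorem isClosed_sparse (m : ℕ) : IsClosed (sparseMeasures m) := by
  rcases Nat.eq_zero_or_pos m with rfl | hm
  · rw [sparse_zero]; exact isClosed_empty
  have h := SpCl.isClosed_mm m hm
  have hS : sparseMeasures m = Set.Ici 1 ∩ Real.log ⁻¹' {v : ℝ | ∃ (k : ℕ)
      (F : MvPolynomial (Fin k) ℤ), F ≠ 0 ∧ (∀ y, (yexp y F).card ≤ m) ∧ mm F = v} := by
    ext x
    rw [mem_iff hm]
    constructor
    · rintro ⟨k, F, hF0, hF, rfl⟩
      refine ⟨Real.one_le_exp (mm_nonneg F), k, F, hF0, hF, ?_⟩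
      rw [Real.log_exp]
    · rintro ⟨hx, k, F, hF0, hF, hv⟩
      refine ⟨k, F, hF0, hF, ?_⟩
      have hx0 : (0 : ℝ) < x := lt_of_lt_of_le one_pos hx
      rw [hv, Real.exp_log hx0]
  rw [hS]
  exact (Real.continuousOn_log.mono fun x (hx : (1 : ℝ) ≤ x) => by
    simp only [Set.mem_compl_iff, Set.mem_singleton_iff]
    intro h0
    rw [h0] at hx
    linarith).preimage_isClosed_of_isClosed isClosed_Ici h

theorem mul_mem_sparse {m : ℕ} {x y : ℝ} (hx : x ∈ sparseMeasures m)
    (hy : y ∈ sparseMeasures m) : x * y ∈ sparseMeasures m := by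
  classical
  rcases Nat.eq_zero_or_pos m with rfl | hm
  · rw [sparse_zero] at hx; exact absurd hx (Set.notMem_empty _)
  rw [mem_iff hm] at hx hy ⊢
  obtain ⟨k, F, hF0, hF, rfl⟩ := hx
  obtain ⟨l, G, hG0, hG, rfl⟩ := hy
  set F' := MvPolynomial.rename (Fin.castAdd l) F with hF'
  set G' := MvPolynomial.rename (Fin.natAdd k) G with hG'
  have hFi : Function.Injective (Fin.castAdd l : Fin k → Fin (k + l)) := Fin.castAdd_injective k l
  have hGi : Function.Injective (Fin.natAdd k : Fin l → Fin (k + l)) := Fin.natAdd_injective l k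
  have hF0' : F' ≠ 0 := by
    rw [hF', Ne, ← map_zero (MvPolynomial.rename (Fin.castAdd l : Fin k → Fin (k + l))),
      (MvPolynomial.rename_injective _ hFi).eq_iff]
    exact hF0
  have hG0' : G' ≠ 0 := by
    rw [hG', Ne, ← map_zero (MvPolynomial.rename (Fin.natAdd k : Fin l → Fin (k + l))),
      (MvPolynomial.rename_injective _ hGi).eq_iff]
    exact hG0
  refine ⟨k + l, F' * G', mul_ne_zero hF0' hG0', ?_, ?_⟩
  · intro y
    refine Fin.addCases (fun i => ?_) (fun i => ?_) y
    · -- the second factor does not contain this variable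
      have h1 : yexp (Fin.castAdd l i) (F' * G') ⊆ yexp i F := by
        intro e he
        unfold yexp at he ⊢
        obtain ⟨s, hs, rfl⟩ := Finset.mem_image.mp he
        have hs' := MvPolynomial.support_mul _ _ hs
        obtain ⟨u, hu, v, hv, rfl⟩ := Finset.mem_add.mp hs'
        rw [hF', MvPolynomial.support_rename_of_injective hFi] at hu
        rw [hG', MvPolynomial.support_rename_of_injective hGi] at hv
        obtain ⟨u', hu', rfl⟩ := Finset.mem_image.mp hu
        obtain ⟨v', _, rfl⟩ := Finset.mem_image.mp hv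
        refine Finset.mem_image.mpr ⟨u', hu', ?_⟩
        have h2 : (Finsupp.mapDomain (Fin.natAdd k) v') (Fin.castAdd l i) = 0 := by
          refine Finsupp.mapDomain_of_notMem_range _ _ ?_
          rintro ⟨j, hj⟩
          have := congrArg Fin.val hj
          simp only [Fin.val_natAdd, Fin.val_castAdd] at this
          have := i.2
          omega
        rw [Finsupp.add_apply, h2, add_zero, Finsupp.mapDomain_apply hFi]
      exact (Finset.card_le_card h1).trans (hF i)
    · have h1 : yexp (Fin.natAdd k i) (F' * G') ⊆ yexp i G := by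
        intro e he
        unfold yexp at he ⊢
        obtain ⟨s, hs, rfl⟩ := Finset.mem_image.mp he
        have hs' := MvPolynomial.support_mul _ _ hs
        obtain ⟨u, hu, v, hv, rfl⟩ := Finset.mem_add.mp hs'
        rw [hF', MvPolynomial.support_rename_of_injective hFi] at hu
        rw [hG', MvPolynomial.support_rename_of_injective hGi] at hv
        obtain ⟨u', _, rfl⟩ := Finset.mem_image.mp hu
        obtain ⟨v', hv', rfl⟩ := Finset.mem_image.mp hv
        refine Finset.mem_image.mpr ⟨v', hv', ?_⟩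
        have h2 : (Finsupp.mapDomain (Fin.castAdd l) u') (Fin.natAdd k i) = 0 := by
          refine Finsupp.mapDomain_of_notMem_range _ _ ?_
          rintro ⟨j, hj⟩
          have := congrArg Fin.val hj
          simp only [Fin.val_natAdd, Fin.val_castAdd] at this
          have := j.2
          omega
        rw [Finsupp.add_apply, h2, zero_add, Finsupp.mapDomain_apply hGi]
      exact (Finset.card_le_card h1).trans (hG i)
  · rw [mm_mul hF0' hG0', hF', hG', mm_rename _ hFi, mm_rename _ hGi, Real.exp_add]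

theorem result (m : ℕ) :
    IsClosed (sparseMeasures m) ∧
    (∀ x ∈ sparseMeasures m, ∀ y ∈ sparseMeasures m, x * y ∈ sparseMeasures m) ∧
    (∃ c : ℝ, 1 < c ∧ ∀ x ∈ sparseMeasures m, x = 1 ∨ c ≤ x) ∧
    ∀ T : ℝ, ∃ N : ℕ, ∀ x ∈ sparseMeasures m, x ≤ T →
      ∃ F : MvPolynomial (Fin N) ℤ, F ≠ 0 ∧ (∀ y : Fin N, (exponentsOf y F).card ≤ m) ∧
        F.support.card ≤ N ∧ (∀ s, |F.coeff s| ≤ N) ∧ x = measureOf F := by
  rcases Nat.eq_zero_or_pos m with rfl | hm
  · rw [sparse_zero]
    exact ⟨isClosed_empty, fun x hx => absurd hx (Set.notMem_empty _), ⟨2, by norm_num,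
      fun x hx => absurd hx (Set.notMem_empty _)⟩, fun _ => ⟨0, fun x hx =>
      absurd hx (Set.notMem_empty _)⟩⟩
  refine ⟨isClosed_sparse m, fun x hx y hy => mul_mem_sparse hx hy, ?_, ?_⟩
  · obtain ⟨c, hc0, hc⟩ := SpCl.gap_sparse m hm
    refine ⟨Real.exp c, Real.one_lt_exp_iff.mpr hc0, fun x hx => ?_⟩
    rw [mem_iff hm] at hx
    obtain ⟨k, F, hF0, hF, rfl⟩ := hx
    rcases hc (Fin k) F hF0 hF with h | h
    · left; rw [h, Real.exp_zero]
    · right; exact Real.exp_le_exp.mpr h
  · intro T
    obtain ⟨N, hN⟩ := SpCl.bounded_complexity m hm (Real.log T)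
    refine ⟨N, fun x hx hxT => ?_⟩
    rw [mem_iff hm] at hx
    obtain ⟨k, F, hF0, hF, rfl⟩ := hx
    obtain ⟨G, hG0, hG, h1, h2, h3⟩ := hN k F hF0 hF (by
      rw [← Real.log_exp (mm F)]
      exact Real.log_le_log (Real.exp_pos _) hxT)
    exact ⟨G, hG0, hG, h1, h2, by rw [measureOf_eq, h3]⟩

end Pool.Agent.Results.MP_6d22ea_nt.SparseClosed
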