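import Mathlib
import Pool.Agent.NRG.S02All

/-!
# The tame part of a polynomial of bounded Mahler measure divides a small sparse polynomial

For all `m`, `T`, `X` there is `M` such that every nonzero integer polynomial `F` in any number of
variables with `M(F) ≤ X` is a product `H R` where `H` divides a nonzero integer polynomial with at
most `M` monomials and coefficients at most `M` in absolute value, and every irreducible factor `P`
of `R` is reciprocal, and has Mahler measure `1` or is wild: no integer linear functional takes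
between `2` and `m` values on its exponents, and `|P|² + |Q|²` has Mahler measure greater than `T`
for all nonzero `Q` coprime to `P`.
-/

open MeasureTheory Pool.Agent.H27Mahler Pool.Agent.NRC Pool.Agent.NRG

namespace Pool.Agent.Results.MP_6d22ea_nt.SparseMultiple

/-- Mahler measure of an integer polynomial in `k` variables. -/
noncomputable def measureOf {k : ℕ} (F : MvPolynomial (Fin k) ℤ) : ℝ :=
  Real.exp (∫ t in Set.Icc (0 : Fin k → ℝ) 1,
    Real.log ‖MvPolynomial.eval
      (fun j : Fin k => Complex.exp (2 * (Real.pi : ℂ) * Complex.I * ((t j : ℝ) : ℂ)))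
      (MvPolynomial.map (Int.castRingHom ℂ) F)‖)

/-- Mahler measure of the Laurent polynomial `P(z) P(1/z) + Q(z) Q(1/z)`, which equals
`|P(z)|² + |Q(z)|²` on the torus. -/
noncomputable def pairMeasure {k : ℕ} (P Q : MvPolynomial (Fin k) ℤ) : ℝ :=
  Real.exp (∫ t in Set.Icc (0 : Fin k → ℝ) 1,
    Real.log (‖MvPolynomial.eval
      (fun j : Fin k => Complex.exp (2 * (Real.pi : ℂ) * Complex.I * ((t j : ℝ) : ℂ)))
      (MvPolynomial.map (Int.castRingHom ℂ) P)‖ ^ 2 + ‖MvPolynomial.eval
      (fun j : Fin k => Complex.exp (2 * (Real.pi : ℂ) * Complex.I * ((t j : ℝ) : ℂ)))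
      (MvPolynomial.map (Int.castRingHom ℂ) Q)‖ ^ 2))

/-- `P` is reciprocal: `P(z) = u z^e P(1/z)` for some exponent `e` and some sign `u`. -/
def IsReciprocal {k : ℕ} (P : MvPolynomial (Fin k) ℤ) : Prop :=
  ∃ (e : Fin k →₀ ℕ) (u : ℤ), (u = 1 ∨ u = -1) ∧ (∀ s ∈ P.support, s ≤ e) ∧
    ∀ s s' : Fin k →₀ ℕ, s + s' = e → P.coeff s = u * P.coeff s'

/-- The values of the integer linear functional `lam` on the exponents of `P`. -/
noncomputable def valuesOf {k : ℕ} (lam : Fin k → ℤ) (P : MvPolynomial (Fin k) ℤ) : Finset ℤ :=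
  P.support.image fun s => ∑ i, lam i * (s i : ℤ)

/-- `P` is wild: nonconstant, every integer linear functional which is not constant on its exponents
takes more than `m` values on them, and `pairMeasure P Q > T` for every nonzero `Q` coprime to `P`. -/
def IsWild {k : ℕ} (m : ℕ) (T : ℝ) (P : MvPolynomial (Fin k) ℤ) : Prop :=
  P.totalDegree ≠ 0 ∧
    (∀ lam : Fin k → ℤ, 2 ≤ (valuesOf lam P).card → m < (valuesOf lam P).card) ∧
    ∀ Q : MvPolynomial (Fin k) ℤ, Q ≠ 0 → IsRelPrime P Q → T < pairMeasure P Q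

theorem measureOf_eq {k : ℕ} (F : MvPolynomial (Fin k) ℤ) : measureOf F = Real.exp (mm F) := by
  rw [measureOf]
  congr 1
  exact integral_cube_eq_mm F

theorem pairMeasure_eq {k : ℕ} (P Q : MvPolynomial (Fin k) ℤ) :
    pairMeasure P Q = Real.exp (LL P Q) := by
  rw [pairMeasure]
  congr 1
  exact integral_cube_eq_LL P Q

theorem valuesOf_eq {k : ℕ} (lam : Fin k → ℤ) (P : MvPolynomial (Fin k) ℤ) :
    valuesOf lam P = wts lam P := by
  rw [valuesOf, wts]
  congr 1
  funext s
  rw [Finsupp.weight_apply, Finsupp.sum_fintype _ _ (by simp)]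
  refine Finset.sum_congr rfl fun i _ => ?_
  rw [nsmul_eq_mul, mul_comm]

/-- a polynomial which is not tame is wild -/
theorem wild_of_not_tame {k : ℕ} {m : ℕ} {T : ℝ} {P : MvPolynomial (Fin k) ℤ} (hP : P ≠ 0)
    (h : ¬ TameC m (Real.log T) P) : IsWild m T P := by
  refine ⟨fun h0 => h (Or.inl (Or.inl h0)), fun lam h2 => ?_, fun Q hQ hrel => ?_⟩
  · rw [valuesOf_eq] at h2 ⊢
    by_contra hcon
    exact h (Or.inl (Or.inr (Or.inr ⟨lam, h2, not_lt.mp hcon⟩)))
  · rw [pairMeasure_eq]
    by_contra hcon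
    have h1 := not_lt.mp hcon
    refine h (Or.inr ⟨hP, Q, hQ, hrel, ?_⟩)
    rw [← Real.log_exp (LL P Q)]
    exact Real.log_le_log (Real.exp_pos _) h1

theorem result (m : ℕ) (T X : ℝ) :
    ∃ M : ℕ, ∀ (k : ℕ) (F : MvPolynomial (Fin k) ℤ), F ≠ 0 → measureOf F ≤ X →
      ∃ H R G : MvPolynomial (Fin k) ℤ, F = H * R ∧
        (∀ P : MvPolynomial (Fin k) ℤ, Irreducible P → P ∣ R →
          IsReciprocal P ∧ (measureOf P = 1 ∨ IsWild m T P)) ∧
        G ≠ 0 ∧ H ∣ G ∧ G.support.card ≤ M ∧ ∀ s : Fin k →₀ ℕ, |G.coeff s| ≤ (M : ℤ) := by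
  obtain ⟨M, hM⟩ := tame_all m (Real.log T) (Real.log X)
  refine ⟨M, fun k F hF hX => ?_⟩
  have hX' : mm F ≤ Real.log X := by
    rw [measureOf_eq] at hX
    rw [← Real.log_exp (mm F)]
    exact Real.log_le_log (Real.exp_pos _) hX
  obtain ⟨H, R, G, h1, h2, h3⟩ := hM k F hF hX'
  refine ⟨H, R, G, h1, fun P hP hPR => ?_, h3⟩
  obtain ⟨h4, h5⟩ := h2 P hP hPR
  refine ⟨h4, h5.imp (fun h => ?_) fun h => wild_of_not_tame hP.ne_zero h⟩
  rw [measureOf_eq, h, Real.exp_zero]

end Pool.Agent.Results.MP_6d22ea_nt.SparseMultiple
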